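import Pool.Agent.H34.PS.Targets

/-!
# Row ML of psq_modules: all primes `p ≡ 1 (mod 4)` (helper79)
-/

set_option autoImplicit false

open Finset
open Pool.Agent.H34.PS

namespace Pool.Agent.H79.PSQ

/-- the indicator of the positive integers -/
noncomputable def f1 (n : ℕ) : ℝ := if n = 0 then 0 else 1

lemma f1_pos {n : ℕ} (h : n ≠ 0) : f1 n = 1 := by
  unfold f1
  rw [if_neg h]

lemma chi_one {p : ℕ} (h : p % 4 = 1) : chi (-1) p = 1 := by
  unfold chi
  have h2 : p % 2 = 1 := by omega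
  rw [if_pos h2, jacobiSym.at_neg_one (Nat.odd_iff.2 h2), ZMod.χ₄_nat_one_mod_four h]
  norm_num

lemma chi_three {p : ℕ} (h : p % 4 = 3) : chi (-1) p = -1 := by
  unfold chi
  have h2 : p % 2 = 1 := by omega
  rw [if_pos h2, jacobiSym.at_neg_one (Nat.odd_iff.2 h2), ZMod.χ₄_nat_three_mod_four h]
  norm_num

lemma chi_two : chi (-1) 2 = 0 := by
  unfold chi
  norm_num

theorem pf_ML (hJM : T_JM) (hEP : T_EP) (hZT : T_ZT) : T_ML := by
  intro η hη0 hη1
  have hσ : (1 : ℝ) < 1 + η := by linarith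
  -- the trivial character
  obtain ⟨hs1, -, -, hl1⟩ := hEP f1 (by simp [f1]) (by simp [f1]) (fun m n => by
    unfold f1
    rcases Nat.eq_zero_or_pos m with hm | hm
    · simp [hm]
    · rcases Nat.eq_zero_or_pos n with hn | hn
      · simp [hn]
      · rw [if_neg (by positivity), if_neg hm.ne', if_neg hn.ne', one_mul])
    (fun n => by
      unfold f1
      split_ifs <;> norm_num) (1 + η) hσ
  -- the character of order 2
  obtain ⟨hm, h1, h0, hb, -, -⟩ := hJM 1 (-1) (Or.inr ⟨rfl, rfl⟩)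
  obtain ⟨hs2, -, -, hl2⟩ := hEP (chi (-1)) h0 h1 hm hb (1 + η) hσ
  have hz1 := (hZT.1 η hη0).1
  have hz2 := hZT.2 (1 + η) hσ
  have he : (fun n : ℕ => f1 n * (n : ℝ) ^ (-(1 + η))) = fun n : ℕ => (n : ℝ) ^ (-(1 + η)) := by
    funext n
    rcases Nat.eq_zero_or_pos n with hn | hn
    · subst hn
      rw [Nat.cast_zero, Real.zero_rpow (by linarith), mul_zero]
    · rw [f1_pos hn.ne', one_mul]
  rw [he] at hl1
  have hA : Real.log (1 / η) - 1 ≤ ∑' p : Nat.Primes, f1 p * ((p : ℕ) : ℝ) ^ (-(1 + η)) := by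
    have := Real.log_le_log (by positivity) hz1
    linarith
  have hB : Real.log (1 / 2) - 1 ≤
      ∑' p : Nat.Primes, chi (-1) p * ((p : ℕ) : ℝ) ^ (-(1 + η)) := by
    have := Real.log_le_log (by norm_num) hz2
    linarith
  -- the prime 2
  set two : Nat.Primes := ⟨2, Nat.prime_two⟩ with htwo
  have hC : HasSum (fun p : Nat.Primes => if p = two then (2 : ℝ) ^ (-(1 + η)) else 0)
      ((2 : ℝ) ^ (-(1 + η))) := hasSum_ite_eq two _
  have hpt : ∀ p : Nat.Primes, (if (p : ℕ) % 4 = 1 then ((p : ℕ) : ℝ) ^ (-(1 + η)) else 0) =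
      (1 / 2) * (f1 p * ((p : ℕ) : ℝ) ^ (-(1 + η))) +
      (1 / 2) * (chi (-1) p * ((p : ℕ) : ℝ) ^ (-(1 + η))) -
      (1 / 2) * (if p = two then (2 : ℝ) ^ (-(1 + η)) else 0) := by
    intro p
    have hp := p.2
    rw [f1_pos hp.ne_zero]
    rcases hp.eq_two_or_odd with h2 | h2
    · have hp2 : p = two := Subtype.ext h2
      have h3 : (p : ℕ) = 2 := h2
      rw [if_pos hp2, h3, chi_two]
      norm_num
    · have hp2 : p ≠ two := by
        intro h
        rw [h] at h2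
        norm_num [htwo] at h2
      rw [if_neg hp2]
      have h4 : (p : ℕ) % 4 = 1 ∨ (p : ℕ) % 4 = 3 := by
        have : ((p : ℕ)) % 2 = 1 := h2
        omega
      rcases h4 with h4 | h4
      · rw [if_pos h4, chi_one h4]
        ring
      · rw [if_neg (by omega), chi_three h4]
        ring
  have hsum : ∑' p : Nat.Primes, (if (p : ℕ) % 4 = 1 then ((p : ℕ) : ℝ) ^ (-(1 + η)) else 0) =
      (1 / 2) * (∑' p : Nat.Primes, f1 p * ((p : ℕ) : ℝ) ^ (-(1 + η))) +
      (1 / 2) * (∑' p : Nat.Primes, chi (-1) p * ((p : ℕ) : ℝ) ^ (-(1 + η))) -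
      (1 / 2) * (2 : ℝ) ^ (-(1 + η)) := by
    rw [tsum_congr hpt]
    exact (((hs1.hasSum.mul_left (1 / 2)).add (hs2.hasSum.mul_left (1 / 2))).sub
      (hC.mul_left (1 / 2))).tsum_eq
  rw [hsum]
  have h2 : (2 : ℝ) ^ (-(1 + η)) ≤ 1 / 2 := by
    calc (2 : ℝ) ^ (-(1 + η)) ≤ (2 : ℝ) ^ (-1 : ℝ) :=
          Real.rpow_le_rpow_of_exponent_le (by norm_num) (by linarith)
      _ = 1 / 2 := by
          rw [Real.rpow_neg_one]
          norm_num
  have hlog : -(0.7 : ℝ) ≤ Real.log (1 / 2) := by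
    rw [one_div, Real.log_inv]
    have := Real.log_two_lt_d9
    linarith
  linarith

end Pool.Agent.H79.PSQ
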